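import Pool.Agent.Q323.ZT.Tw
import Pool.Agent.Q284.FDQ.BM

/-!
# Curves with full rational 2-torsion and 2-Selmer group of order four: all the equations

The same as in `Pool.Agent.Q284.FDQ.Mdl` and `bm_core`, without the assumption that no point of order
two is divisible by two.
-/

set_option autoImplicit false

open WeierstrassCurve

namespace Pool.Agent.Q323.ZT

open Finset

open Pool.Agent.H437R2.Man.MW (crv)

open Pool.Agent.W307.SE (Sel SelR)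

open Pool.Agent.W307.RT (HasT Sh tors_iff)

open Pool.Agent.Q284.FDQ (Cov Quar Md)

open Pool.Agent.Y285.RP (cc)

/-- the everywhere locally solvable coverings have rational points, all the orders of the roots -/
theorem cov_any {c : ℤ × ℤ} (hD : 4 * c.1 ^ 3 + 27 * c.2 ^ 2 ≠ 0) (hT : HasT 2 (Sh c.1 c.2))
    (hc : (SelR c.1 c.2).ncard ≤ 4) {e1 e2 e3 : ℤ}
    (he : ∀ x : ℤ, x ^ 3 + c.1 * x + c.2 = (x - e1) * (x - e2) * (x - e3)) {b d : ℤ}
    (hm : (b, d) ∈ Sel (e2 - e1) (e3 - e1)) : Cov ℚ (e2 - e1) (e3 - e1) b d := by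
  classical
  obtain ⟨d12, d13, d23⟩ := Pool.Agent.W402.FK.dist c.1 c.2 e1 e2 e3 hD he
  obtain ⟨f, hf⟩ := tors_iff.1 hT
  have hA0 : e2 - e1 ≠ 0 := sub_ne_zero.2 d12.symm
  have hB0 : e3 - e1 ≠ 0 := sub_ne_zero.2 d13.symm
  have hAB : e2 - e1 ≠ e3 - e1 := fun h => d23 (by linarith)
  have hfin := Pool.Agent.W701.FK.sel_fin' hA0 hB0 hAB
  have h1 := Pool.Agent.Y212.RZ.SELC2 c.1 c.2 e1 e2 e3 (e2 - e1) (e3 - e1) 1 hD he one_ne_zero
    (by push_cast; ring) (by push_cast; ring) hfin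
  refine rat_of_sel' (W := Sh c.1 c.2) (Sh_eq he) d12 d13 d23 (Finset.univ.image f) ?_ ?_ ?_ hm
  · rw [Finset.card_image_of_injective _ hf, Finset.card_univ]
    exact le_refl 4
  · intro g hg
    obtain ⟨x, -, rfl⟩ := Finset.mem_image.1 hg
    rw [← map_add, Pool.Agent.Y667.SHA.dbl2 x, map_zero]
  · rw [← h1.2]
    exact hc

/-- all everywhere locally solvable coverings have rational points -/
def AllCov (A B : ℤ) : Prop := ∀ b d : ℤ, Squarefree b → Squarefree d → Cov ℝ A B b d →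
  (∀ (p : ℕ) [Fact p.Prime], Cov ℚ_[p] A B b d) → Cov ℚ A B b d

/-- scaling -/
lemma cov_scale {K : Type} [Field K] [CharZero K] {A B A0 B0 b d : ℤ} {m : ℚ} (hm : m ≠ 0)
    (hA : (A : ℚ) = m ^ 2 * (A0 : ℚ)) (hB : (B : ℚ) = m ^ 2 * (B0 : ℚ)) :
    Cov K A B b d ↔ Cov K A0 B0 b d := by
  have hmK : (m : K) ≠ 0 := Rat.cast_ne_zero.2 hm
  have hAK : (A : K) = (m : K) ^ 2 * (A0 : K) := by
    exact_mod_cast congrArg (Rat.cast : ℚ → K) hA
  have hBK : (B : K) = (m : K) ^ 2 * (B0 : K) := by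
    exact_mod_cast congrArg (Rat.cast : ℚ → K) hB
  constructor
  · rintro ⟨M, e, x, y, h0, h1, h2⟩
    refine ⟨M, m * e, x, y, ?_, ?_, ?_⟩
    · exact h0.imp id fun h => mul_ne_zero hmK h
    · rw [← h1, hAK]; ring
    · rw [← h2, hBK]; ring
  · rintro ⟨M, e, x, y, h0, h1, h2⟩
    refine ⟨M, e / m, x, y, ?_, ?_, ?_⟩
    · exact h0.imp id fun h => div_ne_zero h hmK
    · rw [← h1, hAK]; field_simp
    · rw [← h2, hBK]; field_simp

lemma allcov_gen {c : ℤ × ℤ} (hD : 4 * c.1 ^ 3 + 27 * c.2 ^ 2 ≠ 0) (hT : HasT 2 (Sh c.1 c.2))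
    (hc : (SelR c.1 c.2).ncard ≤ 4) {e1 e2 e3 A B : ℤ} {m : ℚ}
    (he : ∀ x : ℤ, x ^ 3 + c.1 * x + c.2 = (x - e1) * (x - e2) * (x - e3)) (hm : m ≠ 0)
    (hA : (A : ℚ) = m ^ 2 * ((e2 - e1 : ℤ) : ℚ)) (hB : (B : ℚ) = m ^ 2 * ((e3 - e1 : ℤ) : ℚ)) :
    A ≠ 0 ∧ B ≠ 0 ∧ A ≠ B ∧ AllCov A B := by
  obtain ⟨d12, d13, d23⟩ := Pool.Agent.W402.FK.dist c.1 c.2 e1 e2 e3 hD he
  have hA0 : e2 - e1 ≠ 0 := sub_ne_zero.2 d12.symm
  have hB0 : e3 - e1 ≠ 0 := sub_ne_zero.2 d13.symm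
  have hAB0 : e2 - e1 ≠ e3 - e1 := fun h => d23 (by linarith)
  have hm2 : m ^ 2 ≠ 0 := pow_ne_zero 2 hm
  refine ⟨?_, ?_, ?_, ?_⟩
  · rintro rfl
    rw [Int.cast_zero] at hA
    exact mul_ne_zero hm2 (Int.cast_ne_zero.2 hA0) hA.symm
  · rintro rfl
    rw [Int.cast_zero] at hB
    exact mul_ne_zero hm2 (Int.cast_ne_zero.2 hB0) hB.symm
  · rintro rfl
    rw [hA] at hB
    have h1 := mul_left_cancel₀ hm2 hB
    exact hAB0 (by exact_mod_cast h1)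
  · intro b d hb hd hR hp
    rw [cov_scale hm hA hB] at hR ⊢
    have hp' : ∀ (p : ℕ) [Fact p.Prime], Cov ℚ_[p] (e2 - e1) (e3 - e1) b d := fun p _ =>
      (cov_scale hm hA hB).1 (hp p)
    exact cov_any hD hT hc he (Pool.Agent.Q284.FDQ.sel_of hA0 hB0 hAB0 hb hd hR hp')

/-- **All the equations.** -/
theorem allcov {c : ℤ × ℤ} (hD : 4 * c.1 ^ 3 + 27 * c.2 ^ 2 ≠ 0) (hT : HasT 2 (Sh c.1 c.2))
    (hc : (SelR c.1 c.2).ncard ≤ 4) {A B : ℤ} (h : Md c A B) :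
    A ≠ 0 ∧ B ≠ 0 ∧ A ≠ B ∧ AllCov A B := by
  obtain ⟨F, -, hF⟩ := Pool.Agent.W513.FK.parf
  obtain ⟨-, -, -, -, -, e1, e2, e3, he, -, -⟩ := hF c hD hT
  obtain ⟨hs, hc1, hc2⟩ := Pool.Agent.W402.FK.coef c.1 c.2 e1 e2 e3 he
  have hcc : cc (e2 - e1) (e3 - e1) (-e1) = c := by
    unfold cc
    refine Prod.ext ?_ ?_
    · show (e2 - e1) * (e3 - e1) - 3 * (-e1) ^ 2 = c.1
      rw [hc1]
      linear_combination (-2 * e1) * hs
    · show -e1 * (e2 - e1 - -e1) * (e3 - e1 - -e1) = c.2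
      rw [hc2]
      ring
  have hk : (e2 - e1) + (e3 - e1) = 3 * (-e1) := by linear_combination hs
  have h' : Md (cc (e2 - e1) (e3 - e1) (-e1)) A B := by rw [hcc]; exact h
  have p213 : ∀ x : ℤ, x ^ 3 + c.1 * x + c.2 = (x - e2) * (x - e1) * (x - e3) := by
    intro x; rw [he]; ring
  have p231 : ∀ x : ℤ, x ^ 3 + c.1 * x + c.2 = (x - e2) * (x - e3) * (x - e1) := by
    intro x; rw [he]; ring
  have p312 : ∀ x : ℤ, x ^ 3 + c.1 * x + c.2 = (x - e3) * (x - e1) * (x - e2) := by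
    intro x; rw [he]; ring
  have p321 : ∀ x : ℤ, x ^ 3 + c.1 * x + c.2 = (x - e3) * (x - e2) * (x - e1) := by
    intro x; rw [he]; ring
  have p132 : ∀ x : ℤ, x ^ 3 + c.1 * x + c.2 = (x - e1) * (x - e3) * (x - e2) := by
    intro x; rw [he]; ring
  obtain ⟨m, hm, ⟨h1, h2⟩ | ⟨h1, h2⟩ | ⟨h1, h2⟩⟩ := Pool.Agent.Q284.ISO.models hk h'
  · rcases Pool.Agent.Q284.FDQ.mdl_two (A := A) (B := B) (X := ((e2 - e1 : ℤ) : ℚ))
      (Y := ((e3 - e1 : ℤ) : ℚ)) (m := m)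
      (by push_cast at h1 ⊢; linear_combination -h1)
      (by push_cast at h2 ⊢; linear_combination h2) with ⟨g1, g2⟩ | ⟨g1, g2⟩
    · exact allcov_gen hD hT hc he hm g1 g2
    · exact allcov_gen hD hT hc p132 hm g1 g2
  · rcases Pool.Agent.Q284.FDQ.mdl_two (A := A) (B := B) (X := ((e1 - e2 : ℤ) : ℚ))
      (Y := ((e3 - e2 : ℤ) : ℚ)) (m := m)
      (by push_cast at h1 ⊢; linear_combination -h1)
      (by push_cast at h2 ⊢; linear_combination h2) with ⟨g1, g2⟩ | ⟨g1, g2⟩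
    · exact allcov_gen hD hT hc p213 hm g1 g2
    · exact allcov_gen hD hT hc p231 hm g1 g2
  · rcases Pool.Agent.Q284.FDQ.mdl_two (A := A) (B := B) (X := ((e1 - e3 : ℤ) : ℚ))
      (Y := ((e2 - e3 : ℤ) : ℚ)) (m := m)
      (by push_cast at h1 ⊢; linear_combination -h1)
      (by push_cast at h2 ⊢; linear_combination h2) with ⟨g1, g2⟩ | ⟨g1, g2⟩
    · exact allcov_gen hD hT hc p312 hm g1 g2
    · exact allcov_gen hD hT hc p321 hm g1 g2

open Pool.Agent.W313.BMX (AdelicPoint values ram Admissible Orthogonal)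

open Pool.Agent.Q284.FDQ (fac adm quar_root cov_of_sel quar_of)

/-- **No rational point: no adelic point is orthogonal to the classes.** -/
theorem bm_core' {A B b : ℤ} (hAB : A ≠ B) (hcov : AllCov A B) (hb : Squarefree b)
    (hd : b ∣ A * B) (hno : ¬ Quar ℚ A B b) (P : AdelicPoint (fac A B b) b) :
    ∃ (k : Fin 2) (q : ℤ), q ≠ 0 ∧ Odd (ram (values P k) q).ncard := by
  by_contra hcon
  push Not at hcon
  have hadm : Admissible (fac A B b) := adm hb.ne_zero hAB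
    (fun ⟨x, hx⟩ => hno (quar_root hb.ne_zero hd (Or.inl hx)))
    (fun ⟨x, hx⟩ => hno (quar_root hb.ne_zero hd (Or.inr hx)))
  have hP : Orthogonal P := by
    intro k q hq
    exact Nat.not_odd_iff_even.1 (hcon k q hq)
  obtain ⟨d, h1, h2, h3⟩ := cov_of_sel hb.ne_zero
    (Pool.Agent.W313.BMX.sel (fac A B b) hadm b hb.ne_zero P hP)
  exact hno (quar_of hb.ne_zero hd (hcov b d hb h1 h2 h3))

end Pool.Agent.Q323.ZT
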