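import Pool.Agent.Q323.ZT.Rat
import Pool.Agent.Q284.FDQ.Mdl
import Pool.Agent.Y667.RZ.Sha

/-!
# Curves with full rational 2-torsion and 2-Selmer group of order four
-/

set_option autoImplicit false

open WeierstrassCurve

namespace Pool.Agent.Q323.ZT

open Finset

open Pool.Agent.H437R2.Man.MW (crv)

open Pool.Agent.W307.SE (Sel SelR)

open Pool.Agent.W307.RT (HasT Sh tors_iff)

lemma Sh_eq {A B e1 e2 e3 : ℤ} (h : ∀ x : ℤ, x ^ 3 + A * x + B = (x - e1) * (x - e2) * (x - e3)) :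
    Sh A B = crv (-(e1 : ℚ)) (-(e2 : ℚ)) (-(e3 : ℚ)) := by
  obtain ⟨hs, hA, hB⟩ := Pool.Agent.W402.FK.coef A B e1 e2 e3 h
  have hs' : (e1 : ℚ) + e2 + e3 = 0 := by exact_mod_cast congrArg (Int.cast : ℤ → ℚ) hs
  apply WeierstrassCurve.ext
  · rfl
  · show (0 : ℚ) = -(e1 : ℚ) + -(e2 : ℚ) + -(e3 : ℚ)
    linear_combination hs'
  · rfl
  · show (A : ℚ) = -(e1 : ℚ) * -(e2 : ℚ) + -(e1 : ℚ) * -(e3 : ℚ) + -(e2 : ℚ) * -(e3 : ℚ)
    rw [hA]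
    push_cast
    ring
  · show (B : ℚ) = -(e1 : ℚ) * -(e2 : ℚ) * -(e3 : ℚ)
    rw [hB]
    push_cast
    ring

/-- the everywhere locally solvable coverings have rational points -/
theorem pr_of_sel {c : ℤ × ℤ} (hD : 4 * c.1 ^ 3 + 27 * c.2 ^ 2 ≠ 0) (hT : HasT 2 (Sh c.1 c.2))
    (hc : (SelR c.1 c.2).ncard ≤ 4) : PR' c := by
  classical
  obtain ⟨F, -, hF⟩ := Pool.Agent.W513.FK.parf
  obtain ⟨-, -, -, -, -, e1, e2, e3, he, -, -⟩ := hF c hD hT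
  obtain ⟨d12, d13, d23⟩ := Pool.Agent.W402.FK.dist c.1 c.2 e1 e2 e3 hD he
  obtain ⟨f, hf⟩ := tors_iff.1 hT
  have hA0 : e2 - e1 ≠ 0 := sub_ne_zero.2 d12.symm
  have hB0 : e3 - e1 ≠ 0 := sub_ne_zero.2 d13.symm
  have hAB : e2 - e1 ≠ e3 - e1 := fun h => d23 (by linarith)
  have hfin := Pool.Agent.W701.FK.sel_fin' hA0 hB0 hAB
  have h1 := Pool.Agent.Y212.RZ.SELC2 c.1 c.2 e1 e2 e3 (e2 - e1) (e3 - e1) 1 hD he one_ne_zero
    (by push_cast; ring) (by push_cast; ring) hfin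
  refine ⟨e1, e2, e3, he, d12, d13, d23, fun b d hm => ?_⟩
  refine rat_of_sel' (W := Sh c.1 c.2) (Sh_eq he) d12 d13 d23 (Finset.univ.image f) ?_ ?_ ?_ hm
  · rw [Finset.card_image_of_injective _ hf, Finset.card_univ]
    exact le_refl 4
  · intro g hg
    obtain ⟨x, -, rfl⟩ := Finset.mem_image.1 hg
    rw [← map_add, Pool.Agent.Y667.SHA.dbl2 x, map_zero]
  · rw [← h1.2]
    exact hc

end Pool.Agent.Q323.ZT
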