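import Pool.Agent.Q284.FDQ.Glob
import Pool.Agent.Q284.FDQ.Tors
import Pool.Agent.Y155.RP.RK2

/-!
# Curves with 2-Selmer groups of order four: all the coverings have rational points

The same as `Pool.Agent.Q284.FDQ.rat_of_sel` and `adelic_core`, without the assumption that no point
of order two is divisible by two.
-/

set_option autoImplicit false

open WeierstrassCurve

namespace Pool.Agent.Q323.ZT

open Finset

open Pool.Agent.Q284.FDQ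

open Pool.Agent.H437R2.Man.MW (crv crv_eqn crv_nonsing pt_fg)

open Pool.Agent.W307.SE (Sel Loc)

open Pool.Agent.W313.BMX (Fam ram)

/-- a squarefree integer in the class of a rational number -/
lemma sqf_rat {v : ℚ} (hv : v ≠ 0) : ∃ s : ℤ, Squarefree s ∧ IsSquare (v * s) := by
  have hn : v.num * v.den ≠ 0 := mul_ne_zero (Rat.num_ne_zero.2 hv) (by exact_mod_cast v.den_ne_zero)
  obtain ⟨s, k, hs, hk, e⟩ := sqf (v.num * v.den) hn
  refine ⟨s, hs, s * k / v.den, ?_⟩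
  have hd : (v.den : ℚ) ≠ 0 := by exact_mod_cast v.den_ne_zero
  have e1 : v * v.den = v.num := Rat.mul_den_eq_num v
  push_cast at e
  field_simp
  have : v * (v.den : ℚ) ^ 2 = s * k ^ 2 := by
    rw [← e, ← e1]; ring
  linear_combination (s : ℚ) * this

open Classical in
/-- If the 2-Selmer group has four elements, all its coverings have rational points. -/
theorem rat_of_sel' {W : WeierstrassCurve ℚ} {e1 e2 e3 : ℤ}
    (hW : W = crv (-(e1 : ℚ)) (-(e2 : ℚ)) (-(e3 : ℚ))) (h12 : e1 ≠ e2) (h13 : e1 ≠ e3)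
    (h23 : e2 ≠ e3) (F4 : Finset W.toAffine.Point) (h4 : 4 ≤ F4.card)
    (hF4 : ∀ g ∈ F4, g + g = 0) (hc : (Sel (e2 - e1) (e3 - e1)).ncard ≤ 4) {b d : ℤ}
    (hm : (b, d) ∈ Sel (e2 - e1) (e3 - e1)) : Cov ℚ (e2 - e1) (e3 - e1) b d := by
  have hA0 : e2 - e1 ≠ 0 := sub_ne_zero.2 h12.symm
  have hB0 : e3 - e1 ≠ 0 := sub_ne_zero.2 h13.symm
  have hAB : e2 - e1 ≠ e3 - e1 := fun h => h23 (by linarith)
  have c12 : (e1 : ℚ) ≠ e2 := fun h => h12 (by exact_mod_cast h)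
  have c13 : (e1 : ℚ) ≠ e3 := fun h => h13 (by exact_mod_cast h)
  have c23 : (e2 : ℚ) ≠ e3 := fun h => h23 (by exact_mod_cast h)
  have z1 : ((e1 : ℚ) - e2) * (e1 - e3) ≠ 0 := mul_ne_zero (sub_ne_zero.2 c12) (sub_ne_zero.2 c13)
  have z2 : ((e2 : ℚ) - e1) * (e2 - e3) ≠ 0 :=
    mul_ne_zero (sub_ne_zero.2 c12.symm) (sub_ne_zero.2 c23)
  have hfin := Pool.Agent.W701.FK.sel_fin' hA0 hB0 hAB
  have hsub := rp_sub hA0 hB0 hAB
  have hfinR : (RP (e2 - e1) (e3 - e1)).Finite := hfin.subset hsub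
  choose n1 hn1 k1 using fun P : W.toAffine.Point => sqf_rat (vl_ne P z1)
  choose n2 hn2 k2 using fun P : W.toAffine.Point => sqf_rat (vl_ne P z2)
  have hmem : ∀ P, (n1 P, n2 P) ∈ RP (e2 - e1) (e3 - e1) := fun P =>
    ⟨hn1 P, hn2 P, cov_of_vl hW (Int.cast_ne_zero.2 (hn1 P).ne_zero)
      (Int.cast_ne_zero.2 (hn2 P).ne_zero) c12 P (k1 P) (k2 P)⟩
  -- representatives
  let T : Finset W.toAffine.Point := hfinR.toFinset.image
    (fun p => if h : ∃ P, (n1 P, n2 P) = p then h.choose else 0)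
  have hT : T.card ≤ (RP (e2 - e1) (e3 - e1)).ncard := by
    rw [Set.ncard_eq_toFinset_card _ hfinR]
    exact card_image_le
  have hfg : AddGroup.FG W.toAffine.Point := by
    rw [hW]
    exact pt_fg (fun h => c12 (neg_injective h)) (fun h => c13 (neg_injective h))
      (fun h => c23 (neg_injective h))
  have h5 := Pool.Agent.Y155.RP.rkb2 _ hfg T (fun g => by
    have hex : ∃ P, (n1 P, n2 P) = (n1 g, n2 g) := ⟨g, rfl⟩
    refine ⟨hex.choose, ?_, ?_⟩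
    · refine mem_image.2 ⟨(n1 g, n2 g), hfinR.mem_toFinset.2 (hmem g), ?_⟩
      rw [dif_pos hex]
    · have hs := hex.choose_spec
      set P := hex.choose with hP
      rw [Prod.mk.injEq] at hs
      have a1 := k1 P
      have a2 := k2 P
      rw [hs.1] at a1
      rw [hs.2] at a2
      have m1 := sq_comb (Int.cast_ne_zero.2 (hn1 g).ne_zero) (k1 g) a1
      have m2 := sq_comb (Int.cast_ne_zero.2 (hn2 g).ne_zero) (k2 g) a2
      have m3 := sq_third (vl_ne g z1) (vl_ne g z2) (vl_ne P z1) (vl_ne P z2) m1 m2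
        (vl_prod hW c12 c13 c23 g) (vl_prod hW c12 c13 c23 P)
      obtain ⟨R, hR⟩ := add2 hW c12 c13 c23 g P m1 m2 m3
      refine ⟨R - P, ?_⟩
      have : g = R + R - P := by rw [← hR]; abel
      rw [this]
      abel) F4 h4 hF4
  have h6 : 4 ≤ (RP (e2 - e1) (e3 - e1)).ncard := by
    refine le_trans ?_ (h5.trans hT)
    have : (2 : ℕ) ^ 2 ≤ 2 ^ (Module.finrank ℤ W.toAffine.Point + 2) :=
      Nat.pow_le_pow_right (by norm_num) (by omega)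
    omega
  have h7 : RP (e2 - e1) (e3 - e1) = Sel (e2 - e1) (e3 - e1) :=
    Set.eq_of_subset_of_ncard_le hsub (hc.trans h6) hfin
  rw [← h7] at hm
  exact hm.2.2

open Classical in
/-- **Adelic points orthogonal to the classes `(x - e, q)`.** -/
theorem adelic_core' {A B e1 e2 e3 : ℤ}
    (h : ∀ x : ℤ, x ^ 3 + A * x + B = (x - e1) * (x - e2) * (x - e3))
    (h12 : e1 ≠ e2) (h13 : e1 ≠ e3) (h23 : e2 ≠ e3)
    (hrat : ∀ b d : ℤ, (b, d) ∈ Sel (e2 - e1) (e3 - e1) → Cov ℚ (e2 - e1) (e3 - e1) b d)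
    (Pr : ((WZ A B).baseChange ℝ).Point)
    (Pp : ∀ p : Nat.Primes, ((WZ A B).baseChange ℚ_[(p : ℕ)]).Point)
    (o1 : ∀ q : ℤ, q ≠ 0 → Even (ram ⟨vl Pr (e1 : ℝ) ((e1 - e2) * (e1 - e3)),
      fun p => vl (Pp p) (e1 : ℚ_[(p : ℕ)]) ((e1 - e2) * (e1 - e3))⟩ q).ncard)
    (o2 : ∀ q : ℤ, q ≠ 0 → Even (ram ⟨vl Pr (e2 : ℝ) ((e2 - e1) * (e2 - e3)),
      fun p => vl (Pp p) (e2 : ℚ_[(p : ℕ)]) ((e2 - e1) * (e2 - e3))⟩ q).ncard) :
    ∃ Q : ((WZ A B).baseChange ℚ).Point,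
      (∃ R, Pr = Affine.Point.baseChange ℚ ℝ Q + (R + R)) ∧
      ∀ p : Nat.Primes, ∃ R, Pp p = Affine.Point.baseChange ℚ ℚ_[(p : ℕ)] Q + (R + R) := by
  have ne1 : ∀ (K : Type) [Field K] [CharZero K], ((e1 : K) - e2) * (e1 - e3) ≠ 0 := by
    intro K _ _
    exact mul_ne_zero (sub_ne_zero.2 (fun h => h12 (by exact_mod_cast h)))
      (sub_ne_zero.2 (fun h => h13 (by exact_mod_cast h)))
  have ne2 : ∀ (K : Type) [Field K] [CharZero K], ((e2 : K) - e1) * (e2 - e3) ≠ 0 := by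
    intro K _ _
    exact mul_ne_zero (sub_ne_zero.2 (fun h => h12.symm (by exact_mod_cast h)))
      (sub_ne_zero.2 (fun h => h23 (by exact_mod_cast h)))
  have hA0 : e2 - e1 ≠ 0 := sub_ne_zero.2 h12.symm
  have hB0 : e3 - e1 ≠ 0 := sub_ne_zero.2 h13.symm
  have hAB : e2 - e1 ≠ e3 - e1 := fun h => h23 (by linarith)
  have hD : (2 * (e2 - e1) * (e3 - e1) * ((e2 - e1) - (e3 - e1)) : ℤ) ≠ 0 :=
    mul_ne_zero (mul_ne_zero (mul_ne_zero two_ne_zero hA0) hB0) (sub_ne_zero.2 hAB)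
  have hfinp : {p : Nat.Primes | ((p : ℕ) : ℤ) ∣
      2 * (e2 - e1) * (e3 - e1) * ((e2 - e1) - (e3 - e1))}.Finite := by
    have h1 : (Set.Iic (2 * (e2 - e1) * (e3 - e1) * ((e2 - e1) - (e3 - e1))).natAbs).Finite :=
      Set.finite_Iic _
    apply (h1.preimage (Subtype.val_injective.injOn)).subset
    intro p hp
    have h2 := Int.natCast_dvd.1 hp
    exact Nat.le_of_dvd (Int.natAbs_pos.2 hD) h2
  have test_ne : ∀ q : ℤ, Pool.Agent.W313.BMX.IsTest q → q ≠ 0 := by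
    rintro q (rfl | rfl | ⟨h1, h2⟩)
    · norm_num
    · norm_num
    · rintro rfl
      norm_num at h2
  obtain ⟨n1, hn1, r1, s1⟩ := Pool.Agent.W313.BMX.hexact
    ⟨vl Pr (e1 : ℝ) ((e1 - e2) * (e1 - e3)),
      fun p => vl (Pp p) (e1 : ℚ_[(p : ℕ)]) ((e1 - e2) * (e1 - e3))⟩
    (vl_ne Pr (ne1 ℝ)) (fun p => vl_ne (Pp p) (ne1 _)) (by
      apply hfinp.subset
      intro p hp
      by_contra hnp
      obtain ⟨⟨m, c, hm, -, hmc⟩, -⟩ := fin_vl (WZ_eq h _) h12 h13 h23 hnp (Pp p)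
      exact hp m c hm hmc) (fun q hq _ => o1 q (test_ne q hq))
  obtain ⟨n2, hn2, r2, s2⟩ := Pool.Agent.W313.BMX.hexact
    ⟨vl Pr (e2 : ℝ) ((e2 - e1) * (e2 - e3)),
      fun p => vl (Pp p) (e2 : ℚ_[(p : ℕ)]) ((e2 - e1) * (e2 - e3))⟩
    (vl_ne Pr (ne2 ℝ)) (fun p => vl_ne (Pp p) (ne2 _)) (by
      apply hfinp.subset
      intro p hp
      by_contra hnp
      obtain ⟨-, ⟨m, c, hm, -, hmc⟩⟩ := fin_vl (WZ_eq h _) h12 h13 h23 hnp (Pp p)
      exact hp m c hm hmc) (fun q hq _ => o2 q (test_ne q hq))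
  have hcR : Cov ℝ (e2 - e1) (e3 - e1) n1 n2 :=
    cov_of_vl (WZ_eq h ℝ) (Int.cast_ne_zero.2 hn1.ne_zero) (Int.cast_ne_zero.2 hn2.ne_zero)
      (fun h => h12 (by exact_mod_cast h)) Pr r1 r2
  have hcp : ∀ (p : ℕ) [Fact p.Prime], Cov ℚ_[p] (e2 - e1) (e3 - e1) n1 n2 := by
    intro p hp
    exact cov_of_vl (WZ_eq h ℚ_[p]) (Int.cast_ne_zero.2 hn1.ne_zero)
      (Int.cast_ne_zero.2 hn2.ne_zero) (fun h => h12 (by exact_mod_cast h)) (Pp ⟨p, hp.out⟩)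
      (s1 ⟨p, hp.out⟩) (s2 ⟨p, hp.out⟩)
  have hsel := sel_of hA0 hB0 hAB hn1 hn2 hcR hcp
  obtain ⟨Q, q1, q2⟩ := point_of_cov (WZ_eq h ℚ) hn1.ne_zero hn2.ne_zero h12 h13 h23
    (hrat _ _ hsel)
  exact ⟨Q, one_field' h h12 h13 h23 hn1.ne_zero hn2.ne_zero Pr Q r1 r2 q1 q2,
    fun p => one_field' h h12 h13 h23 hn1.ne_zero hn2.ne_zero (Pp p) Q (s1 p) (s2 p) q1 q2⟩

/-- the property of the curves: all the everywhere locally solvable coverings have rational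
points -/
def PR' (c : ℤ × ℤ) : Prop := ∃ e1 e2 e3 : ℤ,
  (∀ x : ℤ, x ^ 3 + c.1 * x + c.2 = (x - e1) * (x - e2) * (x - e3)) ∧ e1 ≠ e2 ∧ e1 ≠ e3 ∧
  e2 ≠ e3 ∧ ∀ b d : ℤ, (b, d) ∈ Sel (e2 - e1) (e3 - e1) → Cov ℚ (e2 - e1) (e3 - e1) b d

end Pool.Agent.Q323.ZT
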